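import Pool.Agent.H32.N6H.STP
import Pool.Agent.H32.N6W.Top3

/-!
# The Hasse principle in seven variables, for matrices
-/

set_option autoImplicit false

open Polynomial Matrix NumberField IsDedekindDomain Pool.Agent.H32.QC Pool.Agent.H34.N6

namespace Pool.Agent.H32.N6H

theorem hp7 : HP 7 := fun K _ _ A B h hloc =>
  Pool.Agent.H32.N6W.Top3.mai K A B h.sA h.sB h.sep h.deg hloc

end Pool.Agent.H32.N6H
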