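import Pool.Agent.H32.N6H.Targets

/-!
# Rows SDT and PLS: the discriminant of a hyperplane section
-/

set_option autoImplicit false

open Polynomial Matrix NumberField IsDedekindDomain Pool.Agent.H32.QC Pool.Agent.H34.N6

namespace Pool.Agent.H32.N6H

/-- the parametrisation completed by the first basis vector -/
def Gc {R : Type} [CommRing R] {n : ℕ} (c : Fin n → R) : Matrix (Fin (n + 1)) (Fin (n + 1)) R :=
  fun i j => Fin.cases (Fin.cases 1 (fun _ => 0) i) (fun k => Ec c i k) j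

theorem Gc_succ {R : Type} [CommRing R] {n : ℕ} (c : Fin n → R) (i : Fin (n + 1)) (k : Fin n) :
    Gc c i k.succ = Ec c i k := rfl

theorem Ec_zero {R : Type} [CommRing R] {n : ℕ} (c : Fin n → R) (k : Fin n) :
    Ec c 0 k = c k := rfl

theorem Ec_succ {R : Type} [CommRing R] {n : ℕ} (c : Fin n → R) (i k : Fin n) :
    Ec c i.succ k = (1 : Matrix (Fin n) (Fin n) R) i k := rfl

theorem Gc_mul {R : Type} [CommRing R] {n : ℕ} (c d : Fin n → R) :
    Gc c * Gc d = Gc (c + d) := by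
  ext i j
  rw [Matrix.mul_apply, Fin.sum_univ_succ]
  refine Fin.cases ?_ (fun k => ?_) j
  · have h0 : ∀ k : Fin n, Gc d k.succ 0 = 0 := fun k => rfl
    have h1 : Gc d 0 0 = 1 := rfl
    simp only [h0, h1, mul_zero, mul_one, Finset.sum_const_zero, add_zero]
    rfl
  · simp only [Gc_succ]
    refine Fin.cases ?_ (fun i => ?_) i
    · have h1 : Gc c 0 0 = 1 := rfl
      simp only [Ec_zero, Ec_succ, h1, one_mul, Matrix.one_apply, mul_ite, mul_one, mul_zero,
        Finset.sum_ite_eq', Finset.mem_univ, if_true, Pi.add_apply]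
      ring
    · have h1 : Gc c i.succ 0 = 0 := rfl
      simp only [Ec_succ, h1, zero_mul, zero_add, Matrix.one_apply, mul_ite, mul_one, mul_zero,
        Finset.sum_ite_eq', Finset.mem_univ, if_true]

theorem Gc_zero {R : Type} [CommRing R] {n : ℕ} : Gc (0 : Fin n → R) = 1 := by
  ext i j
  refine Fin.cases ?_ (fun k => ?_) j
  · refine Fin.cases ?_ (fun i => ?_) i
    · rfl
    · have h1 : Gc (0 : Fin n → R) i.succ 0 = 0 := rfl
      rw [h1, Matrix.one_apply_ne (Fin.succ_ne_zero i)]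
  · rw [Gc_succ]
    refine Fin.cases ?_ (fun i => ?_) i
    · rw [Ec_zero, Matrix.one_apply_ne (Fin.succ_ne_zero k).symm]
      rfl
    · rw [Ec_succ, Matrix.one_apply, Matrix.one_apply]
      simp

theorem Gc_det {R : Type} [CommRing R] {n : ℕ} (c : Fin n → R) : (Gc c).det = 1 := by
  rw [Matrix.det_succ_column_zero, Fin.sum_univ_succ]
  have h0 : ∀ k : Fin n, Gc c k.succ 0 = 0 := fun k => rfl
  have h1 : Gc c 0 0 = 1 := rfl
  simp only [h0, h1, mul_zero, zero_mul, Finset.sum_const_zero, add_zero, Fin.val_zero,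
    pow_zero, one_mul]
  have h2 : (Gc c).submatrix (Fin.succAbove 0) Fin.succ = 1 := by
    ext i k
    rw [Matrix.submatrix_apply, Fin.succAbove_zero, Gc_succ, Ec_succ]
  rw [h2, Matrix.det_one]

theorem Gc_adj {R : Type} [CommRing R] {n : ℕ} (c : Fin n → R) :
    (Gc c).adjugate = Gc (-c) := by
  have h1 : Gc c * Gc (-c) = 1 := by rw [Gc_mul, add_neg_cancel, Gc_zero]
  calc (Gc c).adjugate = (Gc c).adjugate * (Gc c * Gc (-c)) := by rw [h1, mul_one]
    _ = Gc (-c) := by
      rw [← mul_assoc, Matrix.adjugate_mul, Gc_det, one_smul, one_mul]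

theorem pf_SDT : T_SDT := by
  intro R _ n M c
  have h1 : ((Gc c)ᵀ * M * Gc c).submatrix Fin.succ Fin.succ = sec c M := by
    ext i j
    rfl
  have h2 := Matrix.adjugate_fin_succ_eq_det_submatrix ((Gc c)ᵀ * M * Gc c) 0 0
  rw [Fin.succAbove_zero, h1] at h2
  simp only [Fin.val_zero, add_zero, pow_zero, one_mul] at h2
  rw [← h2, Matrix.adjugate_mul_distrib, Matrix.adjugate_mul_distrib,
    ← Matrix.adjugate_transpose, Gc_adj]
  have h3 : ∀ j, Gc (-c) 0 j = -(lf c j) := by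
    intro j
    refine Fin.cases ?_ (fun k => ?_) j
    · have e1 : Gc (-c) 0 0 = 1 := rfl
      have e2 : lf c 0 = -1 := rfl
      rw [e1, e2, neg_neg]
    · rfl
  rw [Matrix.mul_apply]
  have h4 : ∀ j, (M.adjugate * (Gc (-c))ᵀ) j 0 = -((M.adjugate *ᵥ lf c) j) := by
    intro j
    rw [Matrix.mul_apply]
    simp only [Matrix.transpose_apply, h3, mul_neg, Finset.sum_neg_distrib]
    rfl
  have h5 : (∑ j, Gc (-c) 0 j * (M.adjugate * (Gc (-c))ᵀ) j 0) =
      lf c ⬝ᵥ (M.adjugate *ᵥ lf c) := by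
    simp only [h3, h4, neg_mul_neg]
    rfl
  exact h5

theorem lf_map {R S : Type} [CommRing R] [CommRing S] (φ : R →+* S) {n : ℕ} (c : Fin n → R)
    (i : Fin (n + 1)) : φ (lf c i) = lf (fun j => φ (c j)) i := by
  refine Fin.cases ?_ (fun k => ?_) i
  · change φ (-1) = -1
    rw [map_neg, map_one]
  · rfl

theorem Ec_map {R S : Type} [CommRing R] [CommRing S] (φ : R →+* S) {n : ℕ} (c : Fin n → R) :
    (Ec c).map φ = Ec fun j => φ (c j) := by
  ext i k
  refine Fin.cases ?_ (fun i => ?_) i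
  · rfl
  · rw [Matrix.map_apply, Ec_succ, Ec_succ, Matrix.one_apply, Matrix.one_apply]
    split_ifs
    · exact map_one φ
    · exact map_zero φ

theorem sec_map {R S : Type} [CommRing R] [CommRing S] (φ : R →+* S) {n : ℕ} (c : Fin n → R)
    (A : Matrix (Fin (n + 1)) (Fin (n + 1)) R) :
    (sec c A).map φ = sec (fun j => φ (c j)) (A.map φ) := by
  unfold sec
  rw [Matrix.map_mul, Matrix.map_mul, ← Ec_map, Matrix.transpose_map]

theorem sec_symm {R : Type} [CommRing R] {n : ℕ} (c : Fin n → R)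
    {A : Matrix (Fin (n + 1)) (Fin (n + 1)) R} (hA : A.IsSymm) : (sec c A).IsSymm := by
  unfold sec Matrix.IsSymm
  rw [Matrix.transpose_mul, Matrix.transpose_mul, Matrix.transpose_transpose, hA.eq,
    Matrix.mul_assoc]

theorem pen_sec {F : Type} [Field F] {n : ℕ} (A B : Matrix (Fin (n + 1)) (Fin (n + 1)) F)
    (c : Fin n → F) : pen (sec c A) (sec c B) = sec (fun i => C (c i)) (pen A B) := by
  unfold pen
  rw [sec_map, sec_map]
  unfold sec
  rw [Matrix.mul_sub, Matrix.sub_mul, Matrix.mul_smul, Matrix.smul_mul]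

theorem pf_PLS (hSDT : T_SDT) : T_PLS := by
  intro F _ n A B c hA hB hg
  have h1 : (pen (sec c A) (sec c B)).det = pl A B (lf c) := by
    rw [pen_sec, hSDT]
    unfold pl
    have h2 : lf (fun i => (C (c i) : F[X])) = cc (lf c) := by
      funext i
      exact (lf_map (C : F →+* F[X]) c i).symm
    rw [h2]
  exact ⟨sec_symm c hA, sec_symm c hB, by rw [h1]; exact hg.1, by rw [h1]; exact hg.2⟩

theorem sec_val {R : Type} [CommRing R] {n : ℕ} (c : Fin n → R)
    (A : Matrix (Fin (n + 1)) (Fin (n + 1)) R) (x : Fin n → R) :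
    x ⬝ᵥ (sec c A *ᵥ x) = (Ec c *ᵥ x) ⬝ᵥ (A *ᵥ (Ec c *ᵥ x)) := by
  unfold sec
  rw [← Matrix.mulVec_mulVec, ← Matrix.mulVec_mulVec, Matrix.dotProduct_mulVec,
    Matrix.vecMul_transpose]

theorem Ec_ne {R : Type} [CommRing R] {n : ℕ} (c : Fin n → R) {x : Fin n → R} (hx : x ≠ 0) :
    Ec c *ᵥ x ≠ 0 := by
  intro h
  apply hx
  funext i
  have h1 := congrFun h i.succ
  have h2 : (Ec c *ᵥ x) i.succ = x i := by
    change ∑ k, Ec c i.succ k * x k = x i
    simp only [Ec_succ, Matrix.one_apply, ite_mul, one_mul, zero_mul, Finset.sum_ite_eq,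
      Finset.mem_univ, if_true]
  rw [h2] at h1
  exact h1

/-- zeros of the section are zeros -/
theorem cz_of_sec {F : Type} [Field F] {n : ℕ} (c : Fin n → F)
    {A B : Matrix (Fin (n + 1)) (Fin (n + 1)) F} (h : CZ (sec c A) (sec c B)) : CZ A B := by
  obtain ⟨x, hx, ha, hb⟩ := h
  rw [sec_val] at ha hb
  exact ⟨_, Ec_ne c hx, ha, hb⟩

end Pool.Agent.H32.N6H
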