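import Pool.Agent.H32.N6H.SDT

/-!
# Rows STP and HPA: the induction step
-/

set_option autoImplicit false

open Polynomial Matrix NumberField IsDedekindDomain Pool.Agent.H32.QC Pool.Agent.H34.N6

namespace Pool.Agent.H32.N6H

theorem pf_STP (hPLS : T_PLS) (hOPL : T_OPL) (hGRD : T_GRD) (hAPC : T_APC) : T_STP := by
  intro n hn hHP K _ _ A B hSD hloc
  by_cases h0 : A 0 0 = 0 ∧ B 0 0 = 0
  · refine ⟨Pi.single 0 1, ?_, ?_, ?_⟩
    · intro h
      have h1 := congrFun h 0
      rw [Pi.single_eq_same] at h1
      exact one_ne_zero h1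
    · rw [Matrix.mulVec_single_one, single_one_dotProduct]
      exact h0.1
    · rw [Matrix.mulVec_single_one, single_one_dotProduct]
      exact h0.2
  · obtain ⟨hF, hR⟩ := hOPL K n (by omega) A B hSD hloc h0
    obtain ⟨S, hS⟩ := hGRD K n hn A B hSD
    choose c e he hc using hF
    choose c' e' he' hc' using hR
    obtain ⟨d, hd, h1, h2⟩ := hAPC K n A B hSD S c e c' e' he he'
    have hsd := hPLS K n A B d hSD.sA hSD.sB hd
    apply cz_of_sec d
    apply hHP K _ _ hsd
    intro w
    cases w with
    | inl v =>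
      change CZ ((sec d A).map (ic v)) ((sec d B).map (ic v))
      rw [sec_map, sec_map]
      by_cases hv : v ∈ S
      · exact hc v _ (h1 v hv)
      · exact hS v hv _
    | inr φ =>
      change CZ ((sec d A).map φ) ((sec d B).map φ)
      rw [sec_map, sec_map]
      exact hc' φ _ (h2 φ)

theorem pf_HPA (h7 : HP 7) (hSTP : T_STP) : T_HPA := by
  intro n hn
  induction n, hn using Nat.le_induction with
  | base => exact h7
  | succ m hm ih => exact hSTP m hm ih

end Pool.Agent.H32.N6H
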