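import Pool.Agent.H1.N6H.BER
import Pool.Agent.H11.N6H.AVD
import Pool.Agent.H13.N6H.SDM
import Pool.Agent.H17.N6H.FIN
import Pool.Agent.H17.N6H.RED
import Pool.Agent.H20.N6H.DFC
import Pool.Agent.H25.N6H.CHW
import Pool.Agent.H25.N6H.OPL
import Pool.Agent.H26.N6H.PLN
import Pool.Agent.H32.N6H.HP7
import Pool.Agent.H32.N6H.SDT
import Pool.Agent.H32.N6H.STP
import Pool.Agent.H35.N6H.DIG
import Pool.Agent.H38.N6H.FFZ
import Pool.Agent.H38.N6H.KDM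
import Pool.Agent.H4.N6H.HN3
import Pool.Agent.H46.N6H.FRM
import Pool.Agent.H49.HN.GDM
import Pool.Agent.H5.QH.All
import Pool.Agent.H54.N6H.EIG
import Pool.Agent.H54.N6H.LIN
import Pool.Agent.H67.N6H.OPC
import Pool.Agent.H67.N6H.OPI
import Pool.Agent.H72.N6H.GRD
import Pool.Agent.H79.N6H.PLS
import Pool.Agent.H98.N6H.APC
import Pool.Agent.H98.N6H.RSF

/-!
# All smooth intersections of two quadrics in `ℙⁿ`, `n ≥ 6`: assembly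
-/

set_option autoImplicit false

namespace Pool.Agent.H32.N6H.All

open Pool.Agent.H32.N6H

theorem aSDT : T_SDT :=
  Pool.Agent.H32.N6H.pf_SDT

theorem aPLS : T_PLS :=
  Pool.Agent.H79.N6H.pf_PLS aSDT

theorem aLIN : T_LIN :=
  Pool.Agent.H54.N6H.pf_LIN

theorem aGDM : T_GDM :=
  Pool.Agent.H49.HN.pf_GDM

theorem aSDM : T_SDM :=
  Pool.Agent.H13.N6H.pf_SDM

theorem aEIG : T_EIG :=
  Pool.Agent.H54.N6H.pf_EIG

theorem aFRM : T_FRM :=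
  Pool.Agent.H46.N6H.pf_FRM

theorem aDFC : T_DFC :=
  Pool.Agent.H20.N6H.pf_DFC

theorem aPLN : T_PLN :=
  Pool.Agent.H26.N6H.pf_PLN aEIG aFRM aDFC aGDM aSDM

theorem aDIG : T_DIG :=
  Pool.Agent.H35.N6H.pf_DIG aEIG aFRM aDFC aSDM

theorem aBER : T_BER :=
  Pool.Agent.H1.N6H.pf_BER aLIN aGDM aSDM aDIG

theorem aOPC : T_OPC :=
  Pool.Agent.H67.N6H.pf_OPC

theorem aOPI : T_OPI :=
  Pool.Agent.H67.N6H.pf_OPI

theorem aOPL : T_OPL :=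
  Pool.Agent.H25.N6H.pf_OPL aOPC aOPI aSDM

theorem aKDM : T_KDM :=
  Pool.Agent.H38.N6H.pf_KDM

theorem aAVD : T_AVD :=
  Pool.Agent.H11.N6H.pf_AVD

theorem aCHW : T_CHW :=
  Pool.Agent.H25.N6H.pf_CHW

theorem aFFZ : T_FFZ :=
  Pool.Agent.H38.N6H.pf_FFZ aPLN aKDM aAVD aCHW

theorem aHN3 : T_HN3 :=
  Pool.Agent.H4.N6H.pf_HN3

theorem aRED : T_RED :=
  Pool.Agent.H17.N6H.pf_RED

theorem aRSF : T_RSF :=
  Pool.Agent.H98.N6H.pf_RSF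

theorem aGRD : T_GRD :=
  Pool.Agent.H72.N6H.pf_GRD aFFZ aHN3 aRED aRSF

theorem aAPC : T_APC :=
  Pool.Agent.H98.N6H.pf_APC Pool.Agent.H5.QH.All.wap aLIN aGDM aBER

theorem aSTP : T_STP :=
  Pool.Agent.H32.N6H.pf_STP aPLS aOPL aGRD aAPC

theorem aHPA : T_HPA :=
  Pool.Agent.H32.N6H.pf_HPA Pool.Agent.H32.N6H.hp7 aSTP

theorem aFIN : T_FIN :=
  Pool.Agent.H17.N6H.pf_FIN aHPA

end Pool.Agent.H32.N6H.All
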