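import Pool.Agent.H34.N6.Defs

/-!
# Hyperplane sections of intersections of two quadrics: definitions
-/

set_option autoImplicit false

open Polynomial Matrix NumberField IsDedekindDomain Pool.Agent.H32.QC Pool.Agent.H34.N6

namespace Pool.Agent.H32.N6H

/-- the pencil `A - X B` -/
noncomputable def pen {F : Type} [Field F] {n : ℕ} (A B : Matrix (Fin n) (Fin n) F) :
    Matrix (Fin n) (Fin n) F[X] :=
  A.map (C : F →+* F[X]) - (X : F[X]) • B.map (C : F →+* F[X])

/-- symmetric matrices with separable discriminant, the second one invertible -/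
structure SD {F : Type} [Field F] {n : ℕ} (A B : Matrix (Fin n) (Fin n) F) : Prop where
  sA : A.IsSymm
  sB : B.IsSymm
  sep : (pen A B).det.Separable
  deg : (pen A B).det.natDegree = n

/-- the linear form as a vector of constant polynomials -/
noncomputable def cc {F : Type} [Field F] {n : ℕ} (l : Fin n → F) : Fin n → F[X] :=
  fun i => C (l i)

/-- the discriminant of the section by the hyperplane `l` -/
noncomputable def pl {F : Type} [Field F] {n : ℕ} (A B : Matrix (Fin n) (Fin n) F)
    (l : Fin n → F) : F[X] := cc l ⬝ᵥ ((pen A B).adjugate *ᵥ cc l)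

/-- the section by the hyperplane `l` is smooth (and the second form nonsingular on it) -/
def Gd {F : Type} [Field F] {n : ℕ} (A B : Matrix (Fin (n + 1)) (Fin (n + 1)) F)
    (l : Fin (n + 1) → F) : Prop := (pl A B l).Separable ∧ (pl A B l).natDegree = n

/-- the parametrisation `x ↦ (c · x, x)` of the hyperplane `x₀ = c · x` -/
def Ec {R : Type} [CommRing R] {n : ℕ} (c : Fin n → R) : Matrix (Fin (n + 1)) (Fin n) R :=
  fun i j => (vecCons c (1 : Matrix (Fin n) (Fin n) R)) i j

/-- the section by the hyperplane `x₀ = c · x` -/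
def sec {R : Type} [CommRing R] {n : ℕ} (c : Fin n → R)
    (A : Matrix (Fin (n + 1)) (Fin (n + 1)) R) : Matrix (Fin n) (Fin n) R :=
  (Ec c)ᵀ * A * Ec c

/-- the linear form `c · x - x₀` -/
def lf {R : Type} [CommRing R] {n : ℕ} (c : Fin n → R) : Fin (n + 1) → R := vecCons (-1) c

/-- the Hasse principle in `n` variables -/
def HP (n : ℕ) : Prop := ∀ (K : Type) [Field K] [NumberField K] (A B : Matrix (Fin n) (Fin n) K),
  SD A B → LocCZ A B → CZ A B

end Pool.Agent.H32.N6H
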