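import Pool.Agent.H32.N6H.Defs

/-!
# Hyperplane sections of intersections of two quadrics: targets
-/

set_option autoImplicit false

open Polynomial Matrix NumberField IsDedekindDomain Pool.Agent.H32.QC Pool.Agent.H34.N6

namespace Pool.Agent.H32.N6H

/-! ### Algebra -/

/-- HA1: the determinant of the section -/
def T_SDT : Prop := ∀ (R : Type) [CommRing R] (n : ℕ) (M : Matrix (Fin (n + 1)) (Fin (n + 1)) R)
  (c : Fin n → R), (sec c M).det = lf c ⬝ᵥ (M.adjugate *ᵥ lf c)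

/-- HA2: good hyperplanes have good sections -/
def T_PLS : Prop := ∀ (F : Type) [Field F] (n : ℕ) (A B : Matrix (Fin (n + 1)) (Fin (n + 1)) F)
  (c : Fin n → F), A.IsSymm → B.IsSymm → Gd A B (lf c) → SD (sec c A) (sec c B)

/-- HA3: on a line of hyperplanes almost all are good if one is -/
def T_LIN : Prop := ∀ (F : Type) [Field F] [CharZero F] (n : ℕ)
  (A B : Matrix (Fin (n + 1)) (Fin (n + 1)) F) (l m : Fin (n + 1) → F) (s0 : F),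
  Gd A B (l + s0 • m) → {s : F | ¬ Gd A B (l + s • m)}.Finite

/-- HA4: change of the field and scalars -/
def T_GDM : Prop := ∀ (F E : Type) [Field F] [Field E] (φ : F →+* E) (n : ℕ)
  (A B : Matrix (Fin (n + 1)) (Fin (n + 1)) F) (l : Fin (n + 1) → F),
  (Gd A B l ↔ Gd (A.map φ) (B.map φ) fun i => φ (l i)) ∧
  pl (A.map φ) (B.map φ) (fun i => φ (l i)) = (pl A B l).map φ ∧
  ∀ s : F, s ≠ 0 → (Gd A B (s • l) ↔ Gd A B l)

/-- HA5: separable discriminants, change of the field and scalars -/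
def T_SDM : Prop := ∀ (F E : Type) [Field F] [Field E] (φ : F →+* E) (n : ℕ)
  (A B : Matrix (Fin n) (Fin n) F), (SD A B ↔ SD (A.map φ) (B.map φ)) ∧
  (SD A B → B.det ≠ 0) ∧ ∀ s : F, s ≠ 0 → (SD (s • A) (s • B) ↔ SD A B)

/-- HA6: the common eigenbasis over an algebraically closed field -/
def T_EIG : Prop := ∀ (E : Type) [Field E] [IsAlgClosed E] (n : ℕ)
  (A B : Matrix (Fin n) (Fin n) E), SD A B →
  ∃ (t : Fin n → E) (k : Fin n → Fin n → E), Function.Injective t ∧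
    (∀ i, A *ᵥ k i = t i • (B *ᵥ k i)) ∧ (∀ i j, i ≠ j → k i ⬝ᵥ (B *ᵥ k j) = 0) ∧
    (∀ i, k i ⬝ᵥ (B *ᵥ k i) ≠ 0) ∧ LinearIndependent E k

/-- HA7: the discriminants of the sections in the eigenbasis -/
def T_FRM : Prop := ∀ (E : Type) [Field E] (n : ℕ)
  (A B : Matrix (Fin n) (Fin n) E) (t : Fin n → E) (k : Fin n → Fin n → E), A.IsSymm →
  B.IsSymm → B.det ≠ 0 → (pen A B).det = C B.det * ∏ i, (C (t i) - X) →
  (∀ i, A *ᵥ k i = t i • (B *ᵥ k i)) → (∀ i j, i ≠ j → k i ⬝ᵥ (B *ᵥ k j) = 0) →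
  ∀ y : Fin n → E, pl A B (∑ i, y i • (B *ᵥ k i)) =
    C B.det * ∑ i, C (y i ^ 2 * (k i ⬝ᵥ (B *ᵥ k i))) * ∏ j ∈ Finset.univ.erase i, (C (t j) - X)

/-- HA8: the factorisation of the discriminant -/
def T_DFC : Prop := ∀ (E : Type) [Field E] (n : ℕ)
  (A B : Matrix (Fin n) (Fin n) E) (t : Fin n → E) (k : Fin n → Fin n → E),
  B.det ≠ 0 → LinearIndependent E k → (∀ i, A *ᵥ k i = t i • (B *ᵥ k i)) →
  (pen A B).det = C B.det * ∏ i, (C (t i) - X)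

/-- HA9: the discriminant of a section does not vanish, and its degree -/
def T_PLN : Prop := ∀ (F : Type) [Field F] (n : ℕ)
  (A B : Matrix (Fin (n + 1)) (Fin (n + 1)) F) (l : Fin (n + 1) → F), SD A B → l ≠ 0 →
  pl A B l ≠ 0 ∧ (pl A B l).natDegree ≤ n

/-- HA10: good hyperplanes over an algebraically closed field -/
def T_DIG : Prop := ∀ (E : Type) [Field E] [IsAlgClosed E] [CharZero E] (n : ℕ)
  (A B : Matrix (Fin (n + 1)) (Fin (n + 1)) E), SD A B → ∃ l : Fin (n + 1) → E, Gd A B l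

/-- HA11: good hyperplanes over any field of characteristic zero -/
def T_BER : Prop := ∀ (F : Type) [Field F] [CharZero F] (n : ℕ)
  (A B : Matrix (Fin (n + 1)) (Fin (n + 1)) F), SD A B → ∃ l : Fin (n + 1) → F, Gd A B l

/-! ### Places which are not controlled -/

/-- HB1: the choice of the local hyperplane through a point -/
def T_OPC : Prop := ∀ (F : Type) [Field F] (n : ℕ), 3 ≤ n →
  ∀ (A B : Matrix (Fin (n + 1)) (Fin (n + 1)) F) (P : Fin (n + 1) → F), A.IsSymm → B.IsSymm →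
  P ⬝ᵥ (A *ᵥ P) = 0 → P ⬝ᵥ (B *ᵥ P) = 0 → (∃ i : Fin n, P i.succ ≠ 0) →
  LinearIndependent F ![A *ᵥ P, B *ᵥ P] →
  ∃ c : Fin n → F, lf c ⬝ᵥ P = 0 ∧ LinearIndependent F ![A *ᵥ P, B *ᵥ P, lf c]

/-- HB2: the implicit function theorem -/
def T_OPI : Prop := ∀ (F : Type) [NontriviallyNormedField F] [CompleteSpace F] (n : ℕ)
  (A B : Matrix (Fin (n + 1)) (Fin (n + 1)) F) (P : Fin (n + 1) → F) (c : Fin n → F),
  (2 : F) ≠ 0 → A.IsSymm → B.IsSymm → P ≠ 0 → P ⬝ᵥ (A *ᵥ P) = 0 → P ⬝ᵥ (B *ᵥ P) = 0 →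
  lf c ⬝ᵥ P = 0 → LinearIndependent F ![A *ᵥ P, B *ᵥ P, lf c] →
  ∃ e : ℝ, 0 < e ∧ ∀ c' : Fin n → F, (∀ i, ‖c' i - c i‖ < e) → CZ (sec c' A) (sec c' B)

/-- HB3: an open set of hyperplanes at every place -/
def T_OPL : Prop := ∀ (K : Type) [Field K] [NumberField K] (n : ℕ), 3 ≤ n →
  ∀ (A B : Matrix (Fin (n + 1)) (Fin (n + 1)) K), SD A B → LocCZ A B →
  ¬ (A 0 0 = 0 ∧ B 0 0 = 0) →
  (∀ v : FPl K, ∃ (c : Fin n → v.adicCompletion K) (e : ℝ), 0 < e ∧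
    ∀ c' : Fin n → v.adicCompletion K, (∀ i, ‖c' i - c i‖ < e) →
      CZ (sec c' (A.map (ic v))) (sec c' (B.map (ic v)))) ∧
  ∀ φ : K →+* ℝ, ∃ (c : Fin n → ℝ) (e : ℝ), 0 < e ∧
    ∀ c' : Fin n → ℝ, (∀ i, |c' i - c i| < e) → CZ (sec c' (A.map φ)) (sec c' (B.map φ))

/-! ### Places of good reduction -/

/-- HC1: singular vectors of the sections -/
def T_KDM : Prop := ∀ (F : Type) [Field F] (n : ℕ)
  (A B : Matrix (Fin (n + 1)) (Fin (n + 1)) F) (l : Fin (n + 1) → F), SD A B → l ≠ 0 →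
  (∀ (t : F) (x : Fin (n + 1) → F) (a : F), x ≠ 0 → l ⬝ᵥ x = 0 →
    A *ᵥ x - t • (B *ᵥ x) = a • l → eval t (pl A B l) = 0) ∧
  (∀ t : F, ∃ W : Submodule F (Fin (n + 1) → F), Module.finrank F W ≤ 2 ∧
    ∀ (x : Fin (n + 1) → F) (a : F), A *ᵥ x - t • (B *ᵥ x) = a • l → x ∈ W) ∧
  ∃ W : Submodule F (Fin (n + 1) → F), Module.finrank F W ≤ 2 ∧
    ∀ (x : Fin (n + 1) → F) (a : F), B *ᵥ x = a • l → x ∈ W

/-- HC2: two linear forms which avoid small subspaces -/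
def T_AVD : Prop := ∀ (F T : Type) [Field F] [Fintype T] (m : ℕ)
  (W : T → Submodule F (Fin m → F)), (∀ i, Module.finrank F (W i) ≤ 2) →
  (∃ s : Finset F, Fintype.card T * m < s.card) →
  ∃ g h : Fin m → F, ∀ i, ∀ x ∈ W i, g ⬝ᵥ x = 0 → h ⬝ᵥ x = 0 → x = 0

/-- HC3: Chevalley and Warning for two quadratic and three linear forms -/
def T_CHW : Prop := ∀ (F : Type) [Field F] [Finite F] (m : ℕ), 8 ≤ m →
  ∀ (A B : Matrix (Fin m) (Fin m) F) (l g h : Fin m → F),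
  ∃ x : Fin m → F, x ≠ 0 ∧ x ⬝ᵥ (A *ᵥ x) = 0 ∧ x ⬝ᵥ (B *ᵥ x) = 0 ∧ l ⬝ᵥ x = 0 ∧
    g ⬝ᵥ x = 0 ∧ h ⬝ᵥ x = 0

/-- HC4: a smooth zero on every hyperplane section over a finite field -/
def T_FFZ : Prop := ∀ (F : Type) [Field F] [Finite F] (n : ℕ), 7 ≤ n →
  (n + 2) * (n + 1) < Nat.card F →
  ∀ (A B : Matrix (Fin (n + 1)) (Fin (n + 1)) F) (l : Fin (n + 1) → F), SD A B → l ≠ 0 →
  ∃ x : Fin (n + 1) → F, x ≠ 0 ∧ x ⬝ᵥ (A *ᵥ x) = 0 ∧ x ⬝ᵥ (B *ᵥ x) = 0 ∧ l ⬝ᵥ x = 0 ∧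
    LinearIndependent F ![A *ᵥ x, B *ᵥ x, l]

/-- HC5: Hensel's lemma for two quadratic forms and a linear form -/
def T_HN3 : Prop := ∀ (F : Type) [NormedField F] [IsUltrametricDist F] [CompleteSpace F] (m : ℕ)
  (A B : Matrix (Fin m) (Fin m) F) (l x : Fin m → F) (R : Fin 3 → Fin m → F), A.IsSymm →
  B.IsSymm → (∀ i j, ‖A i j‖ ≤ 1) → (∀ i j, ‖B i j‖ ≤ 1) → (∀ i, ‖l i‖ ≤ 1) →
  (∀ i, ‖x i‖ ≤ 1) → (∃ i, ‖x i‖ = 1) → (∀ p i, ‖R p i‖ ≤ 1) → ‖x ⬝ᵥ (A *ᵥ x)‖ < 1 →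
  ‖x ⬝ᵥ (B *ᵥ x)‖ < 1 → ‖l ⬝ᵥ x‖ < 1 →
  (∀ p q : Fin 3, ‖(![2 • (A *ᵥ x), 2 • (B *ᵥ x), l] p) ⬝ᵥ R q - (1 : Matrix _ _ F) p q‖ < 1) →
  ∃ y : Fin m → F, y ≠ 0 ∧ y ⬝ᵥ (A *ᵥ y) = 0 ∧ y ⬝ᵥ (B *ᵥ y) = 0 ∧ l ⬝ᵥ y = 0

/-- HC6: reduction modulo almost all places -/
def T_RED : Prop := ∀ (K : Type) [Field K] [NumberField K] (n M : ℕ)
  (A B : Matrix (Fin n) (Fin n) K), SD A B →
  ∃ (A' B' : Matrix (Fin n) (Fin n) (𝓞 K)) (d : K) (S : Finset (FPl K)), d ≠ 0 ∧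
    A'.map (algebraMap (𝓞 K) K) = d • A ∧ B'.map (algebraMap (𝓞 K) K) = d • B ∧
    ∀ v : FPl K, v ∉ S → ∀ (k : Type) [Field k] (π : 𝓞 K →+* k), Function.Surjective π →
      RingHom.ker π = v.asIdeal → Finite k ∧ (2 : k) ≠ 0 ∧ M < Nat.card k ∧
      SD (A'.map π) (B'.map π)

/-- HC7: norms at a finite place and the residue field -/
def T_RSF : Prop := ∀ (K : Type) [Field K] [NumberField K] (v : FPl K),
  ∃ (k : Type) (_ : Field k) (π : 𝓞 K →+* k), Function.Surjective π ∧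
    RingHom.ker π = v.asIdeal ∧
    (∀ x : 𝓞 K, ‖ic v (x : K)‖ ≤ 1) ∧ (∀ x : 𝓞 K, ‖ic v (x : K)‖ < 1 ↔ π x = 0) ∧
    ∀ y : v.adicCompletion K, ‖y‖ ≤ 1 → ∃ x : 𝓞 K, ‖ic v (x : K) - y‖ < 1

/-- HC8: all hyperplane sections have points at the places of good reduction -/
def T_GRD : Prop := ∀ (K : Type) [Field K] [NumberField K] (n : ℕ), 7 ≤ n →
  ∀ A B : Matrix (Fin (n + 1)) (Fin (n + 1)) K, SD A B → ∃ S : Finset (FPl K),
  ∀ v : FPl K, v ∉ S → ∀ c : Fin n → v.adicCompletion K,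
    CZ (sec c (A.map (ic v))) (sec c (B.map (ic v)))

/-! ### Global part -/

/-- HD1: a good hyperplane close to given local ones -/
def T_APC : Prop := ∀ (K : Type) [Field K] [NumberField K] (n : ℕ)
  (A B : Matrix (Fin (n + 1)) (Fin (n + 1)) K), SD A B → ∀ (S : Finset (FPl K))
  (c : ∀ v : FPl K, Fin n → v.adicCompletion K) (e : FPl K → ℝ)
  (c' : (K →+* ℝ) → Fin n → ℝ) (e' : (K →+* ℝ) → ℝ), (∀ v, 0 < e v) → (∀ φ, 0 < e' φ) →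
  ∃ d : Fin n → K, Gd A B (lf d) ∧ (∀ v ∈ S, ∀ i, ‖ic v (d i) - c v i‖ < e v) ∧
    ∀ φ : K →+* ℝ, ∀ i, |φ (d i) - c' φ i| < e' φ

/-- HD2: the induction step -/
def T_STP : Prop := ∀ n : ℕ, 7 ≤ n → HP n → HP (n + 1)

/-- HD3: the Hasse principle in at least seven variables, for matrices -/
def T_HPA : Prop := ∀ n : ℕ, 7 ≤ n → HP n

/-- HD4: the theorem for polynomials -/
def T_FIN : Prop := ∀ (K : Type) [Field K] [NumberField K] (n : ℕ), 6 ≤ n →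
  ∀ f₁ f₂ : MvPolynomial (Fin (n + 1)) K, f₁.IsHomogeneous 2 → f₂.IsHomogeneous 2 →
  (∀ x : Fin (n + 1) → AlgebraicClosure K, x ≠ 0 →
    MvPolynomial.eval₂ (algebraMap K (AlgebraicClosure K)) x f₁ = 0 →
    MvPolynomial.eval₂ (algebraMap K (AlgebraicClosure K)) x f₂ = 0 →
    LinearIndependent (AlgebraicClosure K)
      ![fun i => MvPolynomial.eval₂ (algebraMap K (AlgebraicClosure K)) x
          (MvPolynomial.pderiv i f₁),
        fun i => MvPolynomial.eval₂ (algebraMap K (AlgebraicClosure K)) x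
          (MvPolynomial.pderiv i f₂)]) →
  (∀ φ : K →+* ℝ, ∃ x : Fin (n + 1) → ℝ, x ≠ 0 ∧
    MvPolynomial.eval₂ φ x f₁ = 0 ∧ MvPolynomial.eval₂ φ x f₂ = 0) →
  (∀ v : HeightOneSpectrum (𝓞 K), ∃ x : Fin (n + 1) → v.adicCompletion K, x ≠ 0 ∧
    MvPolynomial.eval₂ (algebraMap K (v.adicCompletion K)) x f₁ = 0 ∧
    MvPolynomial.eval₂ (algebraMap K (v.adicCompletion K)) x f₂ = 0) →
  ∃ x : Fin (n + 1) → K, x ≠ 0 ∧ MvPolynomial.eval x f₁ = 0 ∧ MvPolynomial.eval x f₂ = 0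

end Pool.Agent.H32.N6H
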